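import Pool.Agent.Run7.h991.PS.Iface

open MeasureTheory

namespace H991.PS

theorem t_EXPB : S_EXPB := by
  intro r
  refine ⟨(32 * ((r : ℝ) + 1)) ^ r, by positivity, fun t ht => ?_⟩
  have hr : (0 : ℝ) ≤ r := Nat.cast_nonneg r
  have h1 : 1 + t ≤ (32 * ((r : ℝ) + 1)) * Real.exp (t ^ 2 / (32 * ((r : ℝ) + 1))) := by
    have h2 : t ^ 2 / (32 * ((r : ℝ) + 1)) + 1 ≤ Real.exp (t ^ 2 / (32 * ((r : ℝ) + 1))) :=
      Real.add_one_le_exp _
    have h3 : (32 * ((r : ℝ) + 1)) * (t ^ 2 / (32 * ((r : ℝ) + 1)) + 1) =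
        t ^ 2 + 32 * ((r : ℝ) + 1) := by
      field_simp
    calc 1 + t ≤ t ^ 2 + 32 * ((r : ℝ) + 1) := by nlinarith [sq_nonneg (t - 1)]
      _ = _ := h3.symm
      _ ≤ _ := mul_le_mul_of_nonneg_left h2 (by positivity)
  have h4 : (1 + t) ^ r ≤ (32 * ((r : ℝ) + 1)) ^ r * Real.exp (t ^ 2 / 32) := by
    calc (1 + t) ^ r ≤
        ((32 * ((r : ℝ) + 1)) * Real.exp (t ^ 2 / (32 * ((r : ℝ) + 1)))) ^ r :=
          pow_le_pow_left₀ (by linarith) h1 r
      _ = (32 * ((r : ℝ) + 1)) ^ r * Real.exp (r * (t ^ 2 / (32 * ((r : ℝ) + 1)))) := by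
          rw [mul_pow, ← Real.exp_nat_mul]
      _ ≤ _ := by
          apply mul_le_mul_of_nonneg_left _ (by positivity)
          apply Real.exp_le_exp.mpr
          have h5 : (r : ℝ) * (t ^ 2 / (32 * ((r : ℝ) + 1))) =
              (t ^ 2 / 32) * (r / (r + 1)) := by
            field_simp
          rw [h5]
          have h6 : (r : ℝ) / (r + 1) ≤ 1 := by
            rw [div_le_one (by positivity)]
            linarith
          have h7 : (0 : ℝ) ≤ t ^ 2 / 32 := by positivity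
          nlinarith
  have h8 : (0 : ℝ) < (1 + t) ^ r := by positivity
  rw [Real.exp_neg, ← div_eq_mul_inv, inv_eq_one_div,
    div_le_div_iff₀ (Real.exp_pos _) h8, one_mul]
  exact h4

end H991.PS
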