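import Pool.Agent.Run7.h991.PS.Iface

open MeasureTheory

namespace H991.PS

theorem norm_sub_sq_ge {n : ℕ} (x y : S n) :
    1 - ‖ip x.1 y.1‖ ^ 2 ≤ ‖x.1 - y.1‖ ^ 2 := by
  have h1 := @norm_sub_sq ℂ (V n) _ _ _ x.1 y.1
  rw [nrm, nrm] at h1
  have h2 : (RCLike.re (inner ℂ x.1 y.1) : ℝ) ≤ ‖ip x.1 y.1‖ := by
    unfold ip
    rw [norm_inner_symm y.1 x.1]
    exact RCLike.re_le_norm _
  rw [h1]
  nlinarith [sq_nonneg (1 - ‖ip x.1 y.1‖)]

theorem sep_card (hP : S_PACK) (n N : ℕ) (hN : 1 ≤ N) :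
    ∃ K : ℕ, ∀ Λ : Finset (S n), Sep n N Λ → Λ.card ≤ K := by
  classical
  obtain ⟨C, hC, h⟩ := hP n
  have hN0 : (0 : ℝ) < N := by exact_mod_cast hN
  set δ : ℝ := Real.sqrt (1 / (8 * (N : ℝ))) with hδ
  have hδ0 : 0 < δ := Real.sqrt_pos.mpr (by positivity)
  have hδ2 : δ ^ 2 = 1 / (8 * (N : ℝ)) := Real.sq_sqrt (by positivity)
  obtain ⟨K, hK⟩ := exists_nat_ge (C * (1 + 1 / δ) ^ (2 * n + 1))
  refine ⟨K, fun Λ hΛ => ?_⟩
  have h1 := h δ hδ0 (Λ.image Subtype.val) (by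
    intro x hx y hy hxy
    obtain ⟨x', hx', rfl⟩ := Finset.mem_image.mp hx
    obtain ⟨y', hy', rfl⟩ := Finset.mem_image.mp hy
    have hne : x' ≠ y' := fun he => hxy (by rw [he])
    have h3 := hΛ x' hx' y' hy' hne
    have h4 := norm_sub_sq_ge x' y'
    apply le_of_sq_le_sq _ (norm_nonneg _)
    rw [hδ2]
    linarith) 0
  rw [Finset.sum_image (fun x _ y _ hxy => Subtype.ext hxy)] at h1
  have h5 : ∀ x ∈ Λ, ((1 + ‖x.1 - 0‖ / δ) ^ (2 * n + 1))⁻¹ = ((1 + 1 / δ) ^ (2 * n + 1))⁻¹ := by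
    intro x _
    rw [sub_zero, nrm]
  rw [Finset.sum_congr rfl h5, Finset.sum_const, nsmul_eq_mul, ← div_eq_mul_inv,
    div_le_iff₀ (by positivity)] at h1
  exact_mod_cast h1.trans hK

theorem t_MAXL (hP : S_PACK) : S_MAXL := by
  intro n N hN
  classical
  obtain ⟨K, hK⟩ := sep_card hP n N hN
  have hne : ∃ k, ∃ Λ : Finset (S n), Sep n N Λ ∧ Λ.card = k :=
    ⟨0, ∅, by intro x hx; simp at hx, rfl⟩
  have hbdd : ∃ m, ∀ k, (∃ Λ : Finset (S n), Sep n N Λ ∧ Λ.card = k) → k ≤ m :=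
    ⟨K, fun k ⟨Λ, hΛ, hk⟩ => hk ▸ hK Λ hΛ⟩
  obtain ⟨k, ⟨Λ, hΛ, hk⟩, hmax⟩ : ∃ k, (∃ Λ : Finset (S n), Sep n N Λ ∧ Λ.card = k) ∧
      ∀ j, (∃ Λ : Finset (S n), Sep n N Λ ∧ Λ.card = j) → j ≤ k := by
    have hb : BddAbove {k | ∃ Λ : Finset (S n), Sep n N Λ ∧ Λ.card = k} :=
      ⟨K, fun k ⟨Λ, hΛ, hk⟩ => hk ▸ hK Λ hΛ⟩
    have hn : {k | ∃ Λ : Finset (S n), Sep n N Λ ∧ Λ.card = k}.Nonempty := hne
    exact ⟨sSup _, Nat.sSup_mem hn hb, fun j hj => le_csSup hb hj⟩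
  refine ⟨Λ, hΛ, fun z => ?_⟩
  by_contra hcon
  push Not at hcon
  have hzn : z ∉ Λ := by
    intro hz
    have h1 := hcon z hz
    have h2 : ip z.1 z.1 = 1 := by
      unfold ip
      rw [inner_self_eq_norm_sq_to_K, nrm]
      simp
    rw [h2] at h1
    have h3 : (0 : ℝ) ≤ 1 / (8 * (N : ℝ)) := by positivity
    simp only [norm_one, one_pow] at h1
    linarith
  have hsym : ∀ x y : S n, ‖ip x.1 y.1‖ = ‖ip y.1 x.1‖ := by
    intro x y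
    unfold ip
    exact norm_inner_symm _ _
  have h4 : Sep n N (insert z Λ) := by
    intro x hx y hy hxy
    rcases Finset.mem_insert.mp hx with rfl | hx'
    · rcases Finset.mem_insert.mp hy with rfl | hy'
      · exact absurd rfl hxy
      · exact (hcon y hy').le
    · rcases Finset.mem_insert.mp hy with rfl | hy'
      · rw [hsym]
        exact (hcon x hx').le
      · exact hΛ x hx' y hy' hxy
  have h5 := hmax _ ⟨insert z Λ, h4, rfl⟩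
  rw [Finset.card_insert_of_notMem hzn] at h5
  omega

end H991.PS
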