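import Pool.Agent.Run7.h991.PS.Iface

open MeasureTheory

namespace H991.PS

theorem finrankV (n : ℕ) : Module.finrank ℝ (V n) = 2 * n := by
  rw [finrank_real_of_complex, finrank_euclideanSpace_fin]

theorem pack_one (n : ℕ) : ∃ C : ℝ, 0 < C ∧ ∀ Λ : Finset (V n),
    (∀ x ∈ Λ, ∀ y ∈ Λ, x ≠ y → 1 ≤ ‖x - y‖) →
      ∑ x ∈ Λ, ((1 + ‖x‖) ^ (2 * n + 1))⁻¹ ≤ C := by
  classical
  let μ : Measure (V n) := Measure.addHaar
  set g : V n → ℝ := fun w => ((1 + ‖w‖) ^ (2 * n + 1))⁻¹ with hg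
  have hgpos : ∀ w, 0 ≤ g w := fun w => by
    rw [hg]; positivity
  have hgint : Integrable g μ := by
    have h := integrable_one_add_norm (E := V n) (μ := μ) (r := (2 * n + 1 : ℝ))
      (by rw [finrankV]; push_cast; linarith)
    refine h.congr (Filter.Eventually.of_forall fun w => ?_)
    simp only [hg]
    rw [Real.rpow_neg (by positivity)]
    congr 1
    have : ((2 * n + 1 : ℝ)) = ((2 * n + 1 : ℕ) : ℝ) := by push_cast; ring
    rw [this, Real.rpow_natCast]
  set G : V n → ENNReal := fun w => ENNReal.ofReal ((3 / 2 : ℝ) ^ (2 * n + 1) * g w) with hG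
  have hGfin : ∫⁻ w, G w ∂μ ≠ ⊤ := by
    have h := (hgint.const_mul ((3 / 2 : ℝ) ^ (2 * n + 1))).lintegral_lt_top
    exact h.ne
  set I : ENNReal := ∫⁻ w, G w ∂μ with hI
  set b : ENNReal := μ (Metric.ball 0 (1 / 2)) with hb
  have hb0 : b ≠ 0 := (Metric.measure_ball_pos μ 0 (by norm_num)).ne'
  have hbt : b ≠ ⊤ := measure_ball_lt_top.ne
  refine ⟨(I / b).toReal + 1, by positivity, fun Λ hΛ => ?_⟩
  have hball : ∀ x : V n, μ (Metric.ball x (1 / 2)) = b := fun x => by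
    rw [hb]
    exact Measure.addHaar_ball_center μ x _
  have hpt : ∀ x : V n, ∀ w ∈ Metric.ball x (1 / 2), ENNReal.ofReal (g x) ≤ G w := by
    intro x w hw
    rw [hG]
    apply ENNReal.ofReal_le_ofReal
    simp only [hg]
    have h1 : ‖w‖ ≤ ‖x‖ + 1 / 2 := by
      have h2 : ‖w - x‖ < 1 / 2 := by simpa [dist_eq_norm] using hw
      have h3 : ‖w‖ ≤ ‖x‖ + ‖w - x‖ := by
        have := norm_add_le x (w - x)
        simpa using this
      linarith
    have h4 : 1 + ‖w‖ ≤ 3 / 2 * (1 + ‖x‖) := by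
      nlinarith [norm_nonneg x]
    have h5 : (1 + ‖w‖) ^ (2 * n + 1) ≤ (3 / 2) ^ (2 * n + 1) * (1 + ‖x‖) ^ (2 * n + 1) := by
      rw [← mul_pow]
      exact pow_le_pow_left₀ (by positivity) h4 _
    have h6 : (0 : ℝ) < (1 + ‖w‖) ^ (2 * n + 1) := by positivity
    have h7 : (0 : ℝ) < (1 + ‖x‖) ^ (2 * n + 1) := by positivity
    rw [inv_eq_one_div, ← div_eq_mul_inv, div_le_div_iff₀ h7 h6, one_mul]
    exact h5
  have hdis : (Λ : Set (V n)).PairwiseDisjoint fun x => Metric.ball x (1 / 2) := by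
    intro x hx y hy hxy
    apply Metric.ball_disjoint_ball
    rw [dist_eq_norm]
    have := hΛ x hx y hy hxy
    linarith
  have key : (∑ x ∈ Λ, ENNReal.ofReal (g x)) * b ≤ I := by
    calc (∑ x ∈ Λ, ENNReal.ofReal (g x)) * b
        = ∑ x ∈ Λ, ENNReal.ofReal (g x) * μ (Metric.ball x (1 / 2)) := by
          rw [Finset.sum_mul]
          exact Finset.sum_congr rfl fun x _ => by rw [hball]
      _ = ∑ x ∈ Λ, ∫⁻ _ in Metric.ball x (1 / 2), ENNReal.ofReal (g x) ∂μ :=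
          Finset.sum_congr rfl fun x _ => by rw [setLIntegral_const]
      _ ≤ ∑ x ∈ Λ, ∫⁻ w in Metric.ball x (1 / 2), G w ∂μ :=
          Finset.sum_le_sum fun x _ => setLIntegral_mono' measurableSet_ball (hpt x)
      _ = ∫⁻ w in ⋃ x ∈ Λ, Metric.ball x (1 / 2), G w ∂μ := by
          rw [lintegral_biUnion_finset hdis (fun x _ => measurableSet_ball)]
      _ ≤ I := setLIntegral_le_lintegral _ _
  have key2 : (∑ x ∈ Λ, ENNReal.ofReal (g x)) ≤ I / b := by
    rw [ENNReal.le_div_iff_mul_le (Or.inl hb0) (Or.inl hbt)]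
    exact key
  have hfin : I / b ≠ ⊤ := ENNReal.div_ne_top hGfin hb0
  rw [← ENNReal.ofReal_sum_of_nonneg (fun x _ => hgpos x)] at key2
  have h8 : ∑ x ∈ Λ, g x ≤ (I / b).toReal := by
    have := ENNReal.toReal_mono hfin key2
    rwa [ENNReal.toReal_ofReal (Finset.sum_nonneg fun x _ => hgpos x)] at this
  linarith

theorem t_PACK : S_PACK := by
  intro n
  classical
  obtain ⟨C, hC, h⟩ := pack_one n
  refine ⟨C, hC, fun δ hδ Λ hΛ z => ?_⟩
  have hinj : ∀ x y : V n, (δ⁻¹ : ℝ) • (x - z) = (δ⁻¹ : ℝ) • (y - z) → x = y := by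
    intro x y hxy
    have h1 := smul_right_injective (V n) (inv_ne_zero hδ.ne') hxy
    exact sub_left_inj.mp h1
  have h2 := h (Λ.image fun x => (δ⁻¹ : ℝ) • (x - z)) (by
    intro x hx y hy hxy
    obtain ⟨x', hx', rfl⟩ := Finset.mem_image.mp hx
    obtain ⟨y', hy', rfl⟩ := Finset.mem_image.mp hy
    have hne : x' ≠ y' := fun he => hxy (by rw [he])
    have h3 := hΛ x' hx' y' hy' hne
    rw [← smul_sub, norm_smul, Real.norm_of_nonneg (by positivity), sub_sub_sub_cancel_right,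
      ← div_eq_inv_mul, le_div_iff₀ hδ, one_mul]
    exact h3)
  rw [Finset.sum_image (fun x _ y _ hxy => hinj x y hxy)] at h2
  refine le_trans (le_of_eq (Finset.sum_congr rfl fun x _ => ?_)) h2
  rw [norm_smul, Real.norm_of_nonneg (by positivity), ← div_eq_inv_mul]

end H991.PS
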